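import Pool.Agent.L7h66.MG.Main

/-!
# Triangle detection in graphs with `m` edges: circuits of monotone real gates, maxima of any
number of arguments (free of charge) and few tests need `m ^ (3 / 2 * (1 - γ) - o(1))` gates

The circuits get a graph with `n` vertices as input, one number (`1` or `0`) for each pair of
vertices, and compute with real numbers. They may use

* arbitrary nondecreasing functions `ℝ ^ w → ℝ` (sums, products of nonnegative numbers, minima,
  thresholds, majorities ...) with `w ≤ m ^ α` arguments; these gates are counted,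
* maxima of any number of arguments; these gates are free (there may be `2 ^ (m ^ α)` wires),
* tests: gates with any number of arguments the result of which depends in an arbitrary, not
  monotone way on the answers to the questions whether the arguments are at least some thresholds
  (all Boolean gates are of this kind). The number of arguments of these gates is counted, and the
  product of the numbers `w i + 1` is at most `m ^ γ`. A NOT gate contributes the factor `2`.

**Result.** Let `2 / 3 * θ + γ < 1`. There is `α > 0` such that for all large `m` and all `n` with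
`m ≤ n ^ 2` there are two distributions on graphs with `n` vertices and at most `m` edges, one of
graphs with a triangle and one of graphs without triangles, which no such circuit with at most
`m ^ θ` counted gates can tell apart with an advantage of more than `m ^ (-α)`; and random circuits
of this kind are wrong with probability at least `(1 - m ^ (-α)) / 2` for some graph with at most
`m` edges.

So with `o(log m)` NOT gates one needs `m ^ (3 / 2 - o(1))` gates, as many as there are triples of
vertices in a graph with `√m` vertices, and for each `γ < 1 / 3` a superlinear number of gates.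

Proof. The hard graphs are unions of blocks (a Ruzsa-Szemerédi type system, every triangle of the
union is in a block) with three classes of `q` vertices. In a block a random triangle has to be
told apart from a random bipartite graph. A function that is computed by a program of monotone real
gates and maxima is approximated, at all thresholds together, by `max (β, u e)`, `e` an edge, where
only `q ^ o(1)` edges have `u e > β`: a gate with two or more arguments is bad for those triangles
only that contain two exceptional edges, at most `q ^ o(1)` ones; a maximum is bad for no triangle;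
and a random bipartite graph misses a given large set of edges with probability
`2 ^ (- q ^ Ω(1))`. The tests are frozen along a chain of inputs.
-/

set_option autoImplicit false

namespace Pool.Agent.Results.MP_ad5e8e_lc.MonotoneRealGates

open Filter Finset

/-- Circuits that read a graph with `n` vertices; the inputs are the numbers `x e`, which is `1` if
`e` is an edge and `0` otherwise. Gate `i` has the `w i` arguments `a i j`, each an input or the
result of an earlier gate, and computes the function `op i`; the results are `val x i`. The gates in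
`M` compute the largest of their arguments. The result of a gate `i` in `T` depends in an arbitrary
way on the answers to the tests whether `θ i j` is at most the `j`-th argument. The other gates
compute nondecreasing functions. The circuit accepts if the result of gate `out` is at least `τ`. -/
structure Circuit (n : ℕ) where
  s : ℕ
  T : Finset (Fin s)
  M : Finset (Fin s)
  w : Fin s → ℕ
  a : (i : Fin s) → Fin (w i) → Sym2 (Fin n) ⊕ Fin s
  op : (i : Fin s) → (Fin (w i) → ℝ) → ℝ
  θ : (i : Fin s) → Fin (w i) → ℝ
  val : (Sym2 (Fin n) → Bool) → Fin s → ℝ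
  out : Fin s
  τ : ℝ
  earlier : ∀ i j k, a i j = Sum.inr k → k < i
  mono : ∀ i ∉ T, i ∉ M → Monotone (op i)
  max : ∀ i ∈ M, ∀ z, IsGreatest (Set.range z) (op i z)
  test : ∀ i ∈ T, ∀ z z' : Fin (w i) → ℝ, (∀ j, θ i j ≤ z j ↔ θ i j ≤ z' j) → op i z = op i z'
  spec : ∀ x i, val x i =
    op i (fun j => Sum.elim (fun e => if x e = true then (1 : ℝ) else 0) (val x) (a i j))

open Classical in
/-- the circuit accepts the graph `G` -/
def Accepts {n : ℕ} (C : Circuit n) (G : SimpleGraph (Fin n)) : Prop :=
  C.τ ≤ C.val (fun e => decide (e ∈ G.edgeSet)) C.out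

/-- The number of gates that are not maxima plus the number of arguments of the tests is at most
`m ^ θ`, the tests have at most `m ^ γ` outcomes (that is, the product of the numbers `w i + 1` over
the gates in `T` is at most `m ^ γ`), the monotone gates that are not maxima have at most `m ^ α`
arguments, and there are at most `2 ^ (m ^ α)` wires. -/
def Small {n : ℕ} (m : ℕ) (θ γ α : ℝ) (C : Circuit n) : Prop :=
  (((univ.filter (fun i => i ∉ C.M)).card + ∑ i ∈ C.T, C.w i : ℕ) : ℝ) ≤ (m : ℝ) ^ θ ∧
    ((∏ i ∈ C.T, (C.w i + 1) : ℕ) : ℝ) ≤ (m : ℝ) ^ γ ∧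
    (∀ i ∉ C.T, i ∉ C.M → (C.w i : ℝ) ≤ (m : ℝ) ^ α) ∧
    ((∑ i, C.w i : ℕ) : ℝ) ≤ 2 ^ ((m : ℝ) ^ α)

open Classical in
/-- Let `γ, θ ≥ 0` and `2 / 3 * θ + γ < 1`. There is `α > 0` such that for all large `m` and all
`n` with `m ≤ n ^ 2`:

(A) there are a distribution `yes` of graphs with `n` vertices and at most `m` edges that contain a
triangle and a distribution `no` of such graphs that contain no triangle (both uniform over a finite
index set), such that each small circuit accepts `yes` with a probability that exceeds the
probability that it accepts `no` by at most `m ^ (-α)`;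

(B) for each random small circuit there is a graph with `n` vertices and at most `m` edges on which
it errs with probability at least `(1 - m ^ (-α)) / 2`. -/
theorem result (γ θ : ℝ) (hγ : 0 ≤ γ) (hθ : 0 ≤ θ) (h : 2 / 3 * θ + γ < 1) :
    ∃ α : ℝ, 0 < α ∧ ∀ᶠ m : ℕ in atTop, ∀ n : ℕ, m ≤ n ^ 2 →
      (∃ (Λ : Type) (_ : Fintype Λ) (_ : Nonempty Λ) (yes no : Λ → SimpleGraph (Fin n)),
        (∀ l, (yes l).edgeSet.ncard ≤ m ∧ ¬ (yes l).CliqueFree 3) ∧
        (∀ l, (no l).edgeSet.ncard ≤ m ∧ (no l).CliqueFree 3) ∧
        ∀ C : Circuit n, Small m θ γ α C →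
          ((univ.filter (fun l : Λ => Accepts C (yes l))).card : ℝ) / Fintype.card Λ ≤
            ((univ.filter (fun l : Λ => Accepts C (no l))).card : ℝ) / Fintype.card Λ +
              (m : ℝ) ^ (-α)) ∧
      (∀ (R : Type) (_ : Fintype R) (p : R → ℝ), (∀ r, 0 ≤ p r) → ∑ r, p r = 1 →
        ∀ C : R → Circuit n, (∀ r, Small m θ γ α (C r)) →
        ∃ G : SimpleGraph (Fin n), G.edgeSet.ncard ≤ m ∧
          (1 - (m : ℝ) ^ (-α)) / 2 ≤
            ∑ r ∈ univ.filter (fun r : R => ¬ (Accepts (C r) G ↔ ¬ G.CliqueFree 3)), p r) := by
  obtain ⟨α, hα, hmain⟩ := Pool.Agent.L7h66.MG.tri_real γ θ hγ hθ h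
  refine ⟨α, hα, ?_⟩
  filter_upwards [hmain] with m hm
  intro n hn
  obtain ⟨Λ, hΛ, hΛne, yes, no, hyes, hno, hadv⟩ := hm n hn
  have hA : ∀ C : Circuit n, Small m θ γ α C →
      ((univ.filter (fun l : Λ => Accepts C (yes l))).card : ℝ) / Fintype.card Λ ≤
        ((univ.filter (fun l : Λ => Accepts C (no l))).card : ℝ) / Fintype.card Λ +
          (m : ℝ) ^ (-α) := by
    intro C hC
    exact hadv C.s C.T C.M C.w C.a C.op C.θ C.val C.out C.τ C.earlier C.mono hC.2.2.1 C.max C.test
      C.spec hC.1 hC.2.2.2 hC.2.1
  refine ⟨⟨Λ, hΛ, hΛne, yes, no, hyes, hno, hA⟩, ?_⟩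
  intro R hR p hp hp1 C hC
  by_contra hcon0
  have hcon : ∀ G : SimpleGraph (Fin n), G.edgeSet.ncard ≤ m →
      ∑ r ∈ univ.filter (fun r : R => ¬ (Accepts (C r) G ↔ ¬ G.CliqueFree 3)), p r <
        (1 - (m : ℝ) ^ (-α)) / 2 := by
    intro G hG
    by_contra h
    exact hcon0 ⟨G, hG, not_lt.mp h⟩
  have hL0 : (0 : ℝ) < Fintype.card Λ := by exact_mod_cast Fintype.card_pos
  obtain ⟨q, hq⟩ : ∃ q : ℝ, q = (m : ℝ) ^ (-α) := ⟨_, rfl⟩
  rw [← hq] at hcon
  let er : SimpleGraph (Fin n) → R → ℝ := fun G r =>
    if ¬ (Accepts (C r) G ↔ ¬ G.CliqueFree 3) then 1 else 0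
  have h1 : ∀ G : SimpleGraph (Fin n), G.edgeSet.ncard ≤ m →
      ∑ r, p r * er G r < (1 - q) / 2 := by
    intro G hG
    have h2 := hcon G hG
    rw [Finset.sum_filter] at h2
    refine lt_of_le_of_lt (le_of_eq ?_) h2
    apply Finset.sum_congr rfl
    intro r _
    simp only [er]
    split_ifs <;> simp
  have h3 : ∑ l : Λ, ∑ r, p r * er (yes l) r < Fintype.card Λ * ((1 - q) / 2) := by
    calc _ < ∑ _l : Λ, (1 - q) / 2 :=
          Finset.sum_lt_sum_of_nonempty Finset.univ_nonempty
            (fun l _ => h1 _ (hyes l).1)
      _ = _ := by rw [Finset.sum_const, Finset.card_univ, nsmul_eq_mul]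
  have h4 : ∑ l : Λ, ∑ r, p r * er (no l) r < Fintype.card Λ * ((1 - q) / 2) := by
    calc _ < ∑ _l : Λ, (1 - q) / 2 :=
          Finset.sum_lt_sum_of_nonempty Finset.univ_nonempty
            (fun l _ => h1 _ (hno l).1)
      _ = _ := by rw [Finset.sum_const, Finset.card_univ, nsmul_eq_mul]
  -- many errors for each circuit
  have h5 : ∀ r, (1 - q) * Fintype.card Λ ≤ ∑ l : Λ, er (yes l) r + ∑ l : Λ, er (no l) r := by
    intro r
    have h6 := hA (C r) (hC r)
    rw [← hq, div_add' _ _ _ hL0.ne', div_le_div_iff_of_pos_right hL0, Finset.card_filter,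
      Finset.card_filter] at h6
    push_cast at h6
    have h7 : ∀ l : Λ, er (yes l) r = 1 - (if Accepts (C r) (yes l) then (1 : ℝ) else 0) := by
      intro l
      have : ¬ (yes l).CliqueFree 3 := (hyes l).2
      simp only [er, this, not_false_eq_true, iff_true]
      by_cases hacc : Accepts (C r) (yes l)
      · simp [hacc]
      · simp [hacc]
    have h8 : ∀ l : Λ, er (no l) r = (if Accepts (C r) (no l) then (1 : ℝ) else 0) := by
      intro l
      have : (no l).CliqueFree 3 := (hno l).2
      simp only [er, this, not_true_eq_false, iff_false, not_not]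
    simp only [h7, h8, Finset.sum_sub_distrib, Finset.sum_const, Finset.card_univ, nsmul_eq_mul,
      mul_one]
    linarith
  have h9 : (1 - q) * Fintype.card Λ ≤
      ∑ l : Λ, ∑ r, p r * er (yes l) r + ∑ l : Λ, ∑ r, p r * er (no l) r := by
    rw [Finset.sum_comm, Finset.sum_comm (s := (univ : Finset Λ)) (t := (univ : Finset R)),
      ← Finset.sum_add_distrib]
    calc (1 - q) * (Fintype.card Λ : ℝ) = ∑ r : R, p r * ((1 - q) * Fintype.card Λ) := by
          rw [← Finset.sum_mul, hp1, one_mul]
      _ ≤ _ := by
          apply Finset.sum_le_sum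
          intro r _
          rw [← Finset.mul_sum, ← Finset.mul_sum, ← mul_add]
          exact mul_le_mul_of_nonneg_left (h5 r) (hp r)
  have h10 : (1 - q) * (Fintype.card Λ : ℝ) =
      Fintype.card Λ * ((1 - q) / 2) + Fintype.card Λ * ((1 - q) / 2) := by ring
  linarith

end Pool.Agent.Results.MP_ad5e8e_lc.MonotoneRealGates
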