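import Mathlib
import Pool.Agent.L7h80.NX.Tri

/-!
# Triangle detection: circuits in which only copying costs

The input is a list of the `m` edges of a simple graph on `2 m` vertices; the question is whether the
graph has a triangle.

A circuit (`Circ`) has wires which carry bits, and a sequence of gates. A gate replaces the bits of two
wires by two bits, which are arbitrary functions of the old ones. It is nonexpansive (`Nonexp`) if a
change of one argument changes at most one of the two results. Examples are the comparator
`(x ∧ y, x ∨ y)`, the comparator with negations of any arguments and results, the exchange, and all
pairs `(f (x, y), constant)`, so that wires can also be merged by arbitrary binary functions. What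
these gates cannot do is to copy a bit.
Nonexpansive gates are free. Any other gate, for example a copy or `(x, x ⊕ y)`, costs the number of
the entries of the list on which its two arguments may depend (`price`).

At the beginning the wires carry the results of nondeterministic networks whose edges are guarded by
real formulas (`Net`, from the starting result `RealNetworks`; the special cases are constants, which
are free, and arbitrary bits of one entry or of `w` words of `c log₂ m` bits of different entries). The
size of the circuit is the sum of the sizes of these networks plus the price of the gates.

We show that random circuits of size at most `s` which decide with error probability at most `1 / 3`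
whether the graph has a triangle (or whether it has none) need
`m ^ 2 ≤ 20000 w (√m + 51 c w) s`, that is, size of order `m ^ (3 / 2)`. For comparator circuits with
negations this is a bound for the number of the wires, whatever the number of the gates.

Proof. By the coding of `Pool.Agent.TH457.Ary.Tri` each entry of the list can ask for about
`m log₂ m / 4` bits which are encoded in the other entries. Fix the other entries, and let `k` be the
number of the wires whose networks see the entry and of the gates with a price whose arguments may
depend on it. A nonexpansive gate whose arguments are not constant either makes one of the two bits
constant, or it is, up to an exchange and negations, which are absorbed in a relabelling, trivial or a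
fold: one of the four patterns of the two bits is replaced by the opposite pattern. So all nonconstant
bits are carried by `O (k)` tokens, each fold which matters decreases the number of the patterns of two
tokens which occur (`Core`), and `O (k ^ 2)` operations on the tokens give the same result (`Sim`).
This leaves `2 ^ O (k ^ 2 log k)` possibilities (`Count`); and the networks take
`2 ^ O (k ^ 2 + k log m)` different functions of the entry (`Pool.Agent.Y638.RF.NetCore`).
-/

set_option autoImplicit false

namespace Pool.Agent.Results.MP_ad5e8e_lc.NonexpansiveCircuits

open Pool.Agent.TH697.Form (IsProb)
open Pool.Agent.TH697.Row (ApproximatesOn)
open Pool.Agent.TH457.Ary.Tri (Edge Simple triangle)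
open Pool.Agent.L7h80.NX (Circ)

theorem result : ∀ m c w : ℕ, 1000 ≤ m → 1 ≤ c → 1 ≤ w →
    ∀ (Ω : Type) [Fintype Ω] (μ : Ω → ℝ), IsProb μ →
      ∀ (s : ℕ) (C : Ω → Circ (Fin m) (fun _ => Edge (2 * m)) w (m ^ c)),
        (∀ ω, (C ω).size ≤ s) →
        (ApproximatesOn μ (fun ω => (C ω).eval) Simple triangle ∨
          ApproximatesOn μ (fun ω x => !(C ω).eval x) Simple triangle) →
        (m : ℝ) ^ 2 ≤ 20000 * w * (√m + 51 * c * w) * s :=
  fun _ _ _ hm hc hw _ _ μ hμ s C hs hC =>
    Pool.Agent.L7h80.NX.Tri.circ_bound hm hc hw μ hμ s C hs hC

end Pool.Agent.Results.MP_ad5e8e_lc.NonexpansiveCircuits
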