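import Pool.Agent.L7h66.TR.Asym

/-!
# Time and space for triangle detection by randomized programs with random access to the input

The input is the (unsorted, read-only) list of the `m` edges of a simple graph on `V ≥ 2 m` vertices.
We consider ALL programs with random access to this list: in each step the program reads one item of
the list, whose position is an arbitrary function of the time and of the present state of the memory,
and the new state is an arbitrary function of the time, the old state and the item. So there is no
restriction on the way in which the input is read (the order of the reads may depend on the input and on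
the random choices), and computations are free: the only resources are the number `T` of reads and the
number `S` of bits of the memory (`2 ^ S` states). A word RAM with read-only input, which uses `T` steps
and `S` bits of memory, is of this form.

**Result.**
1. Let `(1024 k) ^ (112 k) * S ≤ m` and `T ≤ k m`. Suppose that a random program says NO (no
   triangle) within `T` reads with probability at least `φ` for all triangle-free graphs with `m` edges, and with
   probability at most `ε` for all graphs with `m` edges that have a triangle, where `φ ≥ 2 ^ (- S)`.
   Then `φ < (1024 k) ^ (224 k) ε`. In particular (`ε = 0`) there are no such deterministic programs,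
   and no such programs without errors for graphs with triangles.
2. Let `0 < δ ≤ 1`. Random programs with `m ^ (1 - δ)` bits of memory, with error probability at most
   `1 / 4` for triangle-free graphs and at most `m ^ (- δ)` for graphs with triangles need at least
   `(δ / 3000) m log m / log log m` reads, for all large `m`, even if only the expected number of reads
   counts.

**Proof.** The hard graphs are tripartite: `n = m / 3` items `(α, β)` of a first list become the paths
`x_α z_i y_β`, and `n` items of a second list the edges `x_α y_β`, so there is a triangle iff the lists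
have a common item. The computation is cut into `r = k ^ (O (k))` blocks; for fixed states at their ends
each block is a decision tree. Random colours of the blocks show that for many inputs there are sets of
places `A` in the first list and `B` in the second list, of `m / k ^ (O (k))` elements each, such that the
places in `A` are read by trees of one side only, and those in `B` by trees of another side only; so the
accepted inputs form rectangles. A window of the first list is chosen such that `A` is almost determined
by the trees of the other sides; therefore most rectangles are so large that both sides take most values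
(resp. many values) in `A` and `B`, and so many inputs in them have a collision.
-/

set_option autoImplicit false

namespace Pool.Agent.Results.MP_ad5e8e_lc.TimeSpaceTradeoff

open Finset

/-- A program for lists of `m` edges of graphs with the vertices `0, …, V - 1`, with the set `Q` of
states of the memory. In the state `q` at the time `t` it stops if `halted q`; otherwise it reads the
item number `pos t q` of the list and if this is `e` it goes to the state `next t q e`. If it has
stopped in the state `q` then its answer is NO (there is no triangle) if `free q`, otherwise YES. -/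
structure Program (m V : ℕ) (Q : Type) where
  init : Q
  pos : ℕ → Q → Fin m
  next : ℕ → Q → Fin V × Fin V → Q
  halted : Q → Prop
  free : Q → Prop

open Classical in
/-- the state after `t` steps on the input `E` -/
noncomputable def Program.state {m V : ℕ} {Q : Type} (P : Program m V Q)
    (E : Fin m → Fin V × Fin V) : ℕ → Q
  | 0 => P.init
  | t + 1 => if P.halted (P.state E t) then P.state E t
      else P.next t (P.state E t) (E (P.pos t (P.state E t)))

/-- A random program with at most `2 ^ S` states: a probability distribution `w` on a finite set of
programs. -/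
structure RandomProgram (m V S : ℕ) where
  Q : Type
  finQ : Fintype Q
  card_le : Fintype.card Q ≤ 2 ^ S
  Ω : Type
  finΩ : Fintype Ω
  w : Ω → ℝ
  nonneg : ∀ ω, 0 ≤ w ω
  sum_one : ∑ ω, w ω = 1
  prog : Ω → Program m V Q

attribute [instance] RandomProgram.finQ RandomProgram.finΩ

open Classical in
/-- the probability that after at most `T` reads the program has stopped with the answer NO -/
noncomputable def RandomProgram.probFree {m V S : ℕ} (R : RandomProgram m V S) (T : ℕ)
    (E : Fin m → Fin V × Fin V) : ℝ :=
  ∑ ω, if (R.prog ω).halted ((R.prog ω).state E T) ∧ (R.prog ω).free ((R.prog ω).state E T) then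
    R.w ω else 0

open Classical in
/-- the probability that the program stops with the answer NO -/
noncomputable def RandomProgram.probFreeEver {m V S : ℕ} (R : RandomProgram m V S)
    (E : Fin m → Fin V × Fin V) : ℝ :=
  ∑ ω, if ∃ T, (R.prog ω).halted ((R.prog ω).state E T) ∧ (R.prog ω).free ((R.prog ω).state E T) then
    R.w ω else 0

open Classical in
/-- the expected number of reads before the time `N` -/
noncomputable def RandomProgram.meanReads {m V S : ℕ} (R : RandomProgram m V S)
    (E : Fin m → Fin V × Fin V) (N : ℕ) : ℝ :=
  ∑ ω, R.w ω * (((range N).filter (fun t => ¬ (R.prog ω).halted ((R.prog ω).state E t))).card : ℝ)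

/-- `E` is the list of the edges of a simple graph: every item is a pair `(u, v)` with `u < v`, and no
pair occurs twice -/
def IsGraph {m V : ℕ} (E : Fin m → Fin V × Fin V) : Prop :=
  (∀ l, (E l).1 < (E l).2) ∧ Function.Injective E

/-- the graph has a triangle `u < v < w` -/
def HasTriangle {m V : ℕ} (E : Fin m → Fin V × Fin V) : Prop :=
  ∃ u v w : Fin V, (∃ l, E l = (u, v)) ∧ (∃ l, E l = (v, w)) ∧ ∃ l, E l = (u, w)

/-! ## conversion -/

open Classical in
/-- the same program in the form of the helper files -/
noncomputable def toProg {m V : ℕ} {Q : Type} (P : Program m V Q) :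
    Pool.Agent.L7h66.TS.Prog (Fin m) (Fin V × Fin V) Q where
  init := P.init
  pos := P.pos
  next := fun t q e => if P.halted q then q else P.next t q e
  out := fun q => P.halted q ∧ P.free q

lemma toProg_st {m V : ℕ} {Q : Type} (P : Program m V Q) (E : Fin m → Fin V × Fin V) (t : ℕ) :
    (toProg P).st E t = P.state E t := by
  induction t with
  | zero => rfl
  | succ t ih =>
    rw [Pool.Agent.L7h66.TS.Prog.st, Program.state, ih]
    rfl

lemma state_of_halted {m V : ℕ} {Q : Type} (P : Program m V Q) (E : Fin m → Fin V × Fin V)
    {t : ℕ} (h : P.halted (P.state E t)) : ∀ s, t ≤ s → P.state E s = P.state E t := by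
  intro s hs
  induction s, hs using Nat.le_induction with
  | base => rfl
  | succ s _ ih =>
    rw [Program.state, ih, if_pos h]

lemma probFree_eq {m V S : ℕ} (R : RandomProgram m V S) (T : ℕ) (E : Fin m → Fin V × Fin V)
    [∀ ω, Decidable ((toProg (R.prog ω)).out ((toProg (R.prog ω)).st E T))] :
    R.probFree T E = ∑ ω, if (toProg (R.prog ω)).out ((toProg (R.prog ω)).st E T) then
      R.w ω else 0 := by
  unfold RandomProgram.probFree
  refine sum_congr rfl fun ω _ => ?_
  have h : ((R.prog ω).halted ((R.prog ω).state E T) ∧ (R.prog ω).free ((R.prog ω).state E T)) ↔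
      (toProg (R.prog ω)).out ((toProg (R.prog ω)).st E T) := by
    rw [toProg_st]
    rfl
  by_cases hc : (toProg (R.prog ω)).out ((toProg (R.prog ω)).st E T)
  · rw [if_pos hc, if_pos (h.2 hc)]
  · rw [if_neg hc, if_neg (fun hh => hc (h.1 hh))]

lemma probFree_le_ever {m V S : ℕ} (R : RandomProgram m V S) (T : ℕ)
    (E : Fin m → Fin V × Fin V) : R.probFree T E ≤ R.probFreeEver E := by
  classical
  unfold RandomProgram.probFree RandomProgram.probFreeEver
  refine sum_le_sum fun ω _ => ?_
  have h0 := R.nonneg ω
  by_cases h : (R.prog ω).halted ((R.prog ω).state E T) ∧ (R.prog ω).free ((R.prog ω).state E T)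
  · rw [if_pos h, if_pos ⟨T, h⟩]
  · rw [if_neg h]
    split_ifs <;> simp [h0]

/-- Markov's inequality -/
lemma markov {m V S : ℕ} (R : RandomProgram m V S) (T : ℕ) (E : Fin m → Fin V × Fin V) {T₀ : ℝ}
    (hT₀ : R.meanReads E T ≤ T₀) (hT : 0 < T) :
    R.probFreeEver E ≤ R.probFree T E + T₀ / T := by
  classical
  have hT' : (0 : ℝ) < T := by exact_mod_cast hT
  have h1 : (∑ ω, if (R.prog ω).halted ((R.prog ω).state E T) then 0 else R.w ω) ≤ T₀ / T := by
    rw [le_div_iff₀ hT', sum_mul]
    refine le_trans ?_ hT₀
    unfold RandomProgram.meanReads
    refine sum_le_sum fun ω _ => ?_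
    have h0 := R.nonneg ω
    by_cases h : (R.prog ω).halted ((R.prog ω).state E T)
    · rw [if_pos h, zero_mul]
      positivity
    · rw [if_neg h]
      have h2 : (range T).filter (fun t => ¬ (R.prog ω).halted ((R.prog ω).state E t)) = range T := by
        rw [filter_eq_self]
        intro t ht hh
        apply h
        rw [state_of_halted (R.prog ω) E hh T (mem_range.1 ht).le]
        exact hh
      rw [h2, card_range]
  have h2 : R.probFreeEver E ≤ R.probFree T E +
      ∑ ω, (if (R.prog ω).halted ((R.prog ω).state E T) then 0 else R.w ω) := by
    unfold RandomProgram.probFree RandomProgram.probFreeEver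
    rw [← sum_add_distrib]
    refine sum_le_sum fun ω _ => ?_
    have h0 := R.nonneg ω
    by_cases h : (R.prog ω).halted ((R.prog ω).state E T)
    · rw [if_pos h, add_zero]
      by_cases h3 : ∃ T, (R.prog ω).halted ((R.prog ω).state E T) ∧
          (R.prog ω).free ((R.prog ω).state E T)
      · obtain ⟨s, hs1, hs2⟩ := h3
        have e : (R.prog ω).state E T = (R.prog ω).state E s := by
          rcases le_total s T with hst | hst
          · exact state_of_halted _ E hs1 T hst
          · exact (state_of_halted _ E h s hst).symm
        rw [if_pos ⟨s, hs1, hs2⟩, if_pos]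
        rw [e]
        exact ⟨hs1, hs2⟩
      · rw [if_neg h3]
        split_ifs <;> simp [h0]
    · rw [if_neg h]
      split_ifs <;> simp [h0]
  linarith

/-! ## the result -/

/-- Part 1: with `S ≥ 1` bits of memory, `(1024 k) ^ (112 k) S ≤ m`, and `T ≤ k m` reads of the list of
the `m` edges of graphs on `V ≥ 2 m` vertices, the answer NO of a random program is less
than `(1024 k) ^ (224 k)` times as likely for triangle-free graphs as for graphs with triangles (in the
worst cases), if its probability for triangle-free graphs is at least `2 ^ (-S)`.

Part 2: let `0 < δ ≤ 1` and let `m` be large. A random program with `S ≤ m ^ (1 - δ)` bits of memory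
which errs with probability at most `1 / 4` for triangle-free graphs and at most `m ^ (- δ)` for graphs
with a triangle needs at least `(δ / 3000) m log m / log log m` expected reads in the worst case. -/
theorem result :
    (∀ k S m V T : ℕ, 1 ≤ k → 1 ≤ S → (1024 * k) ^ (112 * k) * S ≤ m → 2 * m ≤ V → T ≤ k * m →
      ∀ (R : RandomProgram m V S) (φ ε : ℝ), (1 / 2) ^ S ≤ φ → 0 ≤ ε →
      (∀ E, IsGraph E → ¬ HasTriangle E → φ ≤ R.probFree T E) →
      (∀ E, IsGraph E → HasTriangle E → R.probFree T E ≤ ε) →
      φ < (1024 * k : ℝ) ^ (224 * k) * ε) ∧
    (∀ δ : ℝ, 0 < δ → δ ≤ 1 → ∃ m₀ : ℕ, ∀ m V S : ℕ, m₀ ≤ m → 2 * m ≤ V → 1 ≤ S →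
      (S : ℝ) ≤ (m : ℝ) ^ (1 - δ) → ∀ (R : RandomProgram m V S) (T₀ : ℝ),
      (∀ E, IsGraph E → ∀ N, R.meanReads E N ≤ T₀) →
      (∀ E, IsGraph E → ¬ HasTriangle E → 3 / 4 ≤ R.probFreeEver E) →
      (∀ E, IsGraph E → HasTriangle E → R.probFreeEver E ≤ (m : ℝ) ^ (-δ)) →
      δ / 3000 * m * Real.log m / Real.log (Real.log m) ≤ T₀) := by
  classical
  constructor
  · intro k S m V T hk hS hm hV hT R φ ε hφ0 hε0 hφ hε
    have h := Pool.Agent.L7h66.TR.general k S m V T hk hS hm hV hT R.Q R.card_le R.w R.nonneg
      R.sum_one (fun ω => toProg (R.prog ω)) φ ε hφ0 hε0 ?_ ?_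
    · push_cast at h
      exact h
    · intro E h1 h2
      rw [← probFree_eq]
      exact hφ E h1 h2
    · intro E h1 h2
      rw [← probFree_eq]
      exact hε E h1 h2
  · intro δ hδ hδ1
    obtain ⟨m₁, hm₁⟩ := Pool.Agent.L7h66.TR.asymptotic δ hδ hδ1
    obtain ⟨m₂, hm₂⟩ := Filter.eventually_atTop.1 (Pool.Agent.L7h66.TR.large δ hδ)
    refine ⟨max m₁ m₂, ?_⟩
    intro m V S hm hV hS hSm R T₀ hT₀ hφ hε
    obtain ⟨h1, h2, h3, h4⟩ := hm₂ m ((le_max_right _ _).trans hm)
    have hL6 : 6 ≤ Real.log m := by
      refine le_trans ?_ h2
      rw [le_div_iff₀ hδ]
      linarith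
    have hM0 : 0 < Real.log (Real.log m) := by linarith
    have hm0 : (2 : ℝ) ≤ m := by exact_mod_cast h4
    -- the expected number of reads is nonnegative
    have hT0 : 0 ≤ T₀ := by
      by_contra hcon
      push Not at hcon
      -- there is a graph with `m` edges on `V` vertices
      have hg : ∃ E : Fin m → Fin V × Fin V, IsGraph E := by
        refine ⟨fun l => (⟨l.1, by have := l.2; omega⟩, ⟨m + l.1, by have := l.2; omega⟩), ?_, ?_⟩
        · intro l
          rw [Fin.lt_def]
          have := l.2
          show l.1 < m + l.1
          omega
        · intro l l' h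
          have := congrArg (fun p => (p.1 : Fin V).1) h
          exact Fin.ext this
      obtain ⟨E, hE⟩ := hg
      have h5 := hT₀ E hE 0
      unfold RandomProgram.meanReads at h5
      simp at h5
      linarith
    set T : ℕ := ⌈4 * T₀⌉₊ + 1 with hT
    have hT1 : 4 * T₀ ≤ T := by
      have := Nat.le_ceil (4 * T₀)
      rw [hT]
      push_cast
      linarith
    have hT2 : (T : ℝ) < 4 * T₀ + 2 := by
      have := Nat.ceil_lt_add_one (show 0 ≤ 4 * T₀ by linarith)
      rw [hT]
      push_cast
      linarith
    have hTpos : 0 < T := by omega
    have hT' : (0 : ℝ) < T := by exact_mod_cast hTpos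
    have h := hm₁ m V S T ((le_max_left _ _).trans hm) hV hS hSm R.Q R.card_le R.Ω R.w R.nonneg
      R.sum_one (fun ω => toProg (R.prog ω)) ?_ ?_
    · -- the final computation
      have h5 : (1 : ℝ) ≤ δ / 300 * Real.log m / Real.log (Real.log m) := by
        rw [le_div_iff₀ hM0, one_mul]
        exact h3
      set x : ℝ := δ / 300 * Real.log m / Real.log (Real.log m) with hx
      have e1 : δ / 600 * m * Real.log m / Real.log (Real.log m) = x / 2 * m := by
        rw [hx]; ring
      have e2 : δ / 3000 * m * Real.log m / Real.log (Real.log m) = x / 10 * m := by
        rw [hx]; ring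
      rw [e1] at h
      rw [e2]
      have hm20 : (20 : ℝ) ≤ m := by
        have h6 : Real.exp 6 ≤ m := by
          rw [← Real.exp_log (show (0 : ℝ) < m by linarith)]
          exact Real.exp_le_exp.2 hL6
        have h7 : (2 : ℝ) ^ 6 ≤ Real.exp 6 := by
          have : Real.exp 6 = Real.exp 1 ^ 6 := by
            rw [← Real.exp_nat_mul]; norm_num
          rw [this]
          have h8 := Real.add_one_le_exp (1 : ℝ)
          exact pow_le_pow_left₀ (by norm_num) (by linarith) 6
        norm_num at h7
        linarith
      nlinarith [mul_le_mul h5 hm20 (by norm_num) (by linarith)]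
    · intro E h5 h6
      rw [← probFree_eq]
      have h7 := markov R T E (hT₀ E h5 T) hTpos
      have h8 := hφ E h5 h6
      have h9 : T₀ / T ≤ 1 / 4 := by
        rw [div_le_div_iff₀ hT' (by norm_num)]
        linarith
      linarith
    · intro E h5 h6
      rw [← probFree_eq]
      exact (probFree_le_ever R T E).trans (hε E h5 h6)

end Pool.Agent.Results.MP_ad5e8e_lc.TimeSpaceTradeoff
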