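import Pool.Agent.L7h39.TM.Bound

/-!
# Triangle detection with unbounded names of vertices and little memory needs superlinear time

A machine has random access to the unsorted list of the `m` edges of a graph. The names of the
vertices are arbitrary natural numbers, of any size. It has `p` registers for names and `2 ^ S`
states of its other memory. At every step it reads an edge and chooses a new state and the new
contents of the registers among the names at hand; all this may depend in an arbitrary way on the
time, the state, the names at hand and the relation of adjacency between the names at hand, which
the machine gets for free. The machines are randomised, with two-sided error.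

The bound: if the answers are correct with probability at least `1 / 2 + 1 / D` and the expected
number of the reads is at most `E`, then
`m ^ 3 ≤ 3 * 10 ^ 6 * D ^ 4 * (E + m) ^ 2 * (S + (p + 1) * (log m + 1))`.
So with memory `m ^ (1 - 2 δ)`, up to constants and logarithms, the time `m ^ (1 + δ)` is necessary.
The machines have to be correct only for graphs in which at most three edges have an end in common
with another edge; the proof uses only matchings, and matchings with three edges replaced by a
triangle.

The proof. By Ramsey's theorem, the machines may be assumed to depend only on the order of the
names. Let the edges of a matching be in random order, in groups of three edges with the names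
`z, z + 3`; `z + 1, z + 4`; `z + 2, z + 5`. If `z + 1`, `z + 3`, `z + 5` are replaced by `z`,
`z + 2`, `z + 4`, then these three edges form a triangle. The machine does not notice this if it
never has two names from different edges of the group at hand: the order and the adjacency of the
names at hand remain the same. In `r` steps from a fixed configuration a machine reads two edges of
at least `k` groups only with probability at most `(C r ^ 2 / (k m)) ^ k`, which is smaller than the
inverse of the number of configurations if `k` is a little larger than the memory and `r` is of
order `√(k m)`.
-/

set_option autoImplicit false

namespace Pool.Agent.Results.MP_ad5e8e_lc.UnboundedNames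

open Pool.Agent.L7h39.TM Finset

open Classical in
/-- **Triangle detection with unbounded names of vertices and little memory.** -/
theorem result {Q Ω : Type} [Fintype Q] [Fintype Ω] (m p S D : ℕ) (hD : 0 < D)
    (hQ : Fintype.card Q ≤ 2 ^ S) (M : Ω → Machine m p Q) (w : Ω → ℝ) (hw : ∀ ω, 0 ≤ w ω)
    (hw1 : ∑ ω, w ω = 1) (E : ℝ)
    (hM : ∀ x : Fin m → ℕ × ℕ, IsEdgeList x → NearMatching x →
      ∃ (time : Ω → ℕ) (ans : Ω → Bool), (∀ ω, (M ω).Answers x (time ω) (ans ω)) ∧
        ∑ ω, w ω * time ω ≤ E ∧
        1 / 2 + 1 / (D : ℝ) ≤ ∑ ω with (ans ω = true ↔ HasTriangle x), w ω) :
    (m : ℝ) ^ 3 ≤ 3 * 10 ^ 6 * D ^ 4 * (E + m) ^ 2 * (S + (p + 1) * (Nat.log 2 m + 1)) :=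
  bound_exp M w hw hw1 S hQ D hD E hM

end Pool.Agent.Results.MP_ad5e8e_lc.UnboundedNames
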